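import Mathlib
import Pool.Agent.Helper591.Signed

/-!
# The signed Harborth constant of groups of odd exponent

Exact value of `τ_±(G, κ)` for every finite abelian group `G` of odd exponent `κ` which is large
compared with `|G| / κ`.
-/

set_option linter.unusedSectionVars false
set_option linter.unusedVariables false

namespace Pool.Agent.Results.MP_8ac08c_co.OddExponent

/-- The restricted signed `h`-fold sumset of `A`: all sums `ε₁ a₁ + ⋯ + ε_h a_h` with
`a₁, …, a_h ∈ A` pairwise distinct and all `ε_i = ±1`. -/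
def signedSums {G : Type*} [AddCommGroup G] (h : ℕ) (A : Finset G) : Set G :=
  {x | ∃ C : Finset G, C ⊆ A ∧ C.card = h ∧
    ∃ ε : G → ℤ, (∀ a ∈ C, ε a = 1 ∨ ε a = -1) ∧ ∑ a ∈ C, ε a • a = x}

/-- The sizes of the subsets `A` of `G` with `0` not in the restricted signed `h`-fold sumset. -/
def sizes (G : Type*) [AddCommGroup G] (h : ℕ) : Set ℕ :=
  {k | ∃ A : Finset G, (0 : G) ∉ signedSums h A ∧ A.card = k}

/-- `τ_±(G, h)`, the largest size of a subset `A` of `G` with `0` not in the restricted signed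
`h`-fold sumset of `A`. -/
noncomputable def tau (G : Type*) [AddCommGroup G] (h : ℕ) : ℕ := sSup (sizes G h)

/-- `D` is dissociated: no nonempty subset of `D` has a signed sum equal to zero. -/
def Dissociated {Q : Type*} [AddCommGroup Q] (D : Finset Q) : Prop :=
  ∀ C : Finset Q, C ⊆ D → C.Nonempty →
    ∀ ε : Q → ℤ, (∀ d ∈ C, ε d = 1 ∨ ε d = -1) → ∑ d ∈ C, ε d • d ≠ 0

/-- The sizes of the dissociated subsets of the quotients of `G` of order at most `m`. -/
def quotientSizes (G : Type*) [AddCommGroup G] (m : ℕ) : Set ℕ :=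
  {k | ∃ H : AddSubgroup G, H.index ≤ m ∧ ∃ D : Finset (G ⧸ H), Dissociated D ∧ D.card = k}

/-- The largest size of a dissociated subset of a quotient of `G` of order at most `m`. -/
noncomputable def quotientDis (G : Type*) [AddCommGroup G] (m : ℕ) : ℕ := sSup (quotientSizes G m)

open Finset
open Pool.Agent.Helper591.Kneser Pool.Agent.Helper591.Growth Pool.Agent.Helper591.Signed
open scoped Pointwise

/-! ### Dissociated sets -/

theorem two_pow_card_le {Q : Type*} [AddCommGroup Q] [Finite Q] {D : Finset Q}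
    (hD : Dissociated D) : 2 ^ D.card ≤ Nat.card Q := by
  classical
  have := Fintype.ofFinite Q
  rw [Nat.card_eq_fintype_card, ← Finset.card_powerset, ← Finset.card_univ]
  apply Finset.card_le_card_of_injOn (fun C => ∑ d ∈ C, d) (fun _ _ => Finset.mem_univ _)
  intro C hC C' hC' heq
  by_contra hne
  rw [Finset.mem_coe, Finset.mem_powerset] at hC hC'
  have heq' : ∑ d ∈ C, d = ∑ d ∈ C', d := heq
  set S := (C \ C') ∪ (C' \ C) with hS
  have hdis : Disjoint (C \ C') (C' \ C) := by
    rw [Finset.disjoint_left]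
    intro x hx hx'
    rw [Finset.mem_sdiff] at hx hx'
    exact hx'.2 hx.1
  apply hD S (Finset.union_subset (Finset.sdiff_subset.trans hC) (Finset.sdiff_subset.trans hC'))
    _ (fun d => if d ∈ C then 1 else -1)
  · intro d _
    by_cases h : d ∈ C <;> simp [h]
  · rw [hS, Finset.sum_union hdis]
    have h1 : ∑ d ∈ C \ C', (if d ∈ C then (1 : ℤ) else -1) • d = ∑ d ∈ C \ C', d := by
      apply Finset.sum_congr rfl
      intro d hd
      rw [Finset.mem_sdiff] at hd
      simp [hd.1]
    have h2 : ∑ d ∈ C' \ C, (if d ∈ C then (1 : ℤ) else -1) • d = -∑ d ∈ C' \ C, d := by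
      rw [← Finset.sum_neg_distrib]
      apply Finset.sum_congr rfl
      intro d hd
      rw [Finset.mem_sdiff] at hd
      simp [hd.2]
    rw [h1, h2]
    have h3 := Finset.sum_inter_add_sum_sdiff C C' (fun d => d)
    have h4 := Finset.sum_inter_add_sum_sdiff C' C (fun d => d)
    rw [Finset.inter_comm C' C] at h4
    have : ∑ d ∈ C \ C', d = ∑ d ∈ C' \ C, d := by
      apply add_left_cancel (a := ∑ d ∈ C ∩ C', d)
      rw [h3, h4, heq']
    rw [this, add_neg_cancel]
  · rw [Finset.nonempty_iff_ne_empty]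
    intro hemp
    apply hne
    rw [hS, Finset.union_eq_empty, Finset.sdiff_eq_empty_iff_subset,
      Finset.sdiff_eq_empty_iff_subset] at hemp
    exact Finset.Subset.antisymm hemp.1 hemp.2

/-! ### Signed sums in a subgroup -/

section

variable {G : Type*} [AddCommGroup G] [Fintype G] [DecidableEq G]

/-- `C` has a signed sum in `H`. -/
def SZ (H : AddSubgroup G) (C : Finset G) : Prop :=
  ∃ ε : G → ℤ, (∀ a ∈ C, ε a = 1 ∨ ε a = -1) ∧ ∑ a ∈ C, ε a • a ∈ H

theorem sum_combine {C C' : Finset G} (hdis : Disjoint C C') (ε ε' : G → ℤ) :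
    ∑ a ∈ C ∪ C', (if a ∈ C then ε a else ε' a) • a = ∑ a ∈ C, ε a • a + ∑ a ∈ C', ε' a • a := by
  rw [Finset.sum_union hdis]
  congr 1
  · apply Finset.sum_congr rfl
    intro a ha
    simp [ha]
  · apply Finset.sum_congr rfl
    intro a ha
    have : a ∉ C := fun h => Finset.disjoint_left.mp hdis h ha
    simp [this]

theorem sign_combine {C C' : Finset G} {ε ε' : G → ℤ} (h : ∀ a ∈ C, ε a = 1 ∨ ε a = -1)
    (h' : ∀ a ∈ C', ε' a = 1 ∨ ε' a = -1) :
    ∀ a ∈ C ∪ C', (if a ∈ C then ε a else ε' a) = 1 ∨ (if a ∈ C then ε a else ε' a) = -1 := by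
  intro a ha
  by_cases hC : a ∈ C
  · simp only [hC, if_true]; exact h a hC
  · simp only [hC, if_false]
    rw [Finset.mem_union] at ha
    exact h' a (ha.resolve_left hC)

theorem SZ.union {H : AddSubgroup G} {C C' : Finset G} (hdis : Disjoint C C') (h : SZ H C)
    (h' : SZ H C') : SZ H (C ∪ C') := by
  obtain ⟨ε, h1, h2⟩ := h
  obtain ⟨ε', h1', h2'⟩ := h'
  refine ⟨fun a => if a ∈ C then ε a else ε' a, sign_combine h1 h1', ?_⟩
  rw [sum_combine hdis]
  exact H.add_mem h2 h2'

/-- The image of a set without signed sums in `H` is dissociated modulo `H`. -/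
theorem dissociated_image {H : AddSubgroup G} {R : Finset G}
    (hR : ∀ C ⊆ R, C.Nonempty → ¬ SZ H C) :
    ∃ D : Finset (G ⧸ H), Dissociated D ∧ D.card = R.card := by
  classical
  have hinj : Set.InjOn (QuotientAddGroup.mk : G → G ⧸ H) (R : Set G) := by
    intro a ha b hb hab
    by_contra hne
    apply hR {a, b} (by intro x hx; rw [Finset.mem_insert, Finset.mem_singleton] at hx;
                        rcases hx with rfl | rfl <;> assumption) ⟨a, by simp⟩
    refine ⟨fun x => if x = a then 1 else -1, ?_, ?_⟩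
    · intro x _
      by_cases h : x = a <;> simp [h]
    · rw [Finset.sum_pair hne]
      have hba : b ≠ a := fun h => hne h.symm
      simp only [if_true, if_neg hba, one_smul, neg_smul]
      rw [← sub_eq_add_neg, ← neg_mem_iff, neg_sub, sub_eq_neg_add]
      exact QuotientAddGroup.eq.mp hab
  refine ⟨R.image QuotientAddGroup.mk, ?_, Finset.card_image_of_injOn hinj⟩
  intro C hC hCne ε hε hsum
  set C' := R.filter (fun a => (QuotientAddGroup.mk a : G ⧸ H) ∈ C) with hC'
  have himg : C'.image QuotientAddGroup.mk = C := by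
    ext q
    rw [Finset.mem_image]
    constructor
    · rintro ⟨a, ha, rfl⟩
      rw [hC', Finset.mem_filter] at ha
      exact ha.2
    · intro hq
      have := hC hq
      rw [Finset.mem_image] at this
      obtain ⟨a, ha, rfl⟩ := this
      exact ⟨a, by rw [hC', Finset.mem_filter]; exact ⟨ha, hq⟩, rfl⟩
  apply hR C' (Finset.filter_subset _ _)
  · rw [← himg] at hCne
    exact Finset.image_nonempty.mp hCne
  · refine ⟨fun a => ε (QuotientAddGroup.mk a), ?_, ?_⟩
    · intro a ha
      rw [hC', Finset.mem_filter] at ha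
      exact hε _ ha.2
    · rw [← QuotientAddGroup.eq_zero_iff, ← hsum, ← himg, Finset.sum_image]
      · rw [QuotientAddGroup.mk_sum]
        rfl
      · intro a ha b hb hab
        rw [Finset.mem_coe, hC', Finset.mem_filter] at ha hb
        exact hinj ha.1 hb.1 hab

/-! ### Upper bound -/

open Classical in
theorem upper_core {κ m t : ℕ} (hcard : Fintype.card G = m * κ) (hodd : Odd (Fintype.card G))
    (hbig : 42 * m ^ 2 * (Nat.log 2 (Fintype.card G) + 1) ^ 2 ≤ κ)
    (ht : ∀ H : AddSubgroup G, H.index ≤ m → ∀ D : Finset (G ⧸ H), Dissociated D → D.card ≤ t)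
    (htm : 2 ^ t ≤ m) {A : Finset G} (hA : A.card = κ + t) : (0 : G) ∈ signedSums κ A := by
  set n := Fintype.card G with hn
  set w := Nat.log 2 n with hw
  have hnpos : 0 < n := Fintype.card_pos
  have hmpos : 0 < m := Nat.pos_of_ne_zero (by rintro rfl; omega)
  have hκpos : 0 < κ := Nat.pos_of_ne_zero (by rintro rfl; omega)
  set L := 4 * m + 1 with hL
  set s := 4 * L * (w + 1) with hs
  set l := s + w with hl
  have htw : t ≤ w := by
    rw [hw]
    apply Nat.le_log_of_pow_le (by norm_num)
    refine htm.trans ?_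
    rw [hcard]; exact Nat.le_mul_of_pos_right _ hκpos
  -- numerical bounds
  have hlle : l ≤ 21 * m * (w + 1) := by
    rw [hl, hs, hL]
    nlinarith [Nat.zero_le w, hmpos]
  have hnum : 2 * (l * w + s) ≤ κ := by
    have h1 : s ≤ l := by omega
    have h2 : l * w + s ≤ l * (w + 1) := by rw [Nat.mul_succ]; omega
    have h3 : l * (w + 1) ≤ 21 * m * (w + 1) * (w + 1) := Nat.mul_le_mul_right _ hlle
    have h4 : m ≤ m ^ 2 := by nlinarith
    have h5 : 21 * m * (w + 1) * (w + 1) ≤ 21 * m ^ 2 * (w + 1) ^ 2 := by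
      have : 21 * m * (w + 1) * (w + 1) = 21 * (m * (w + 1) ^ 2) := by ring
      rw [this]
      have : 21 * m ^ 2 * (w + 1) ^ 2 = 21 * (m ^ 2 * (w + 1) ^ 2) := by ring
      rw [this]
      exact Nat.mul_le_mul_left _ (Nat.mul_le_mul_right _ h4)
    have h6 : 2 * (21 * m ^ 2 * (w + 1) ^ 2) = 42 * m ^ 2 * (w + 1) ^ 2 := by ring
    omega
  have hnum2 : (m + 1) * (l * w) < κ := by
    have h1 : (m + 1) * (l * w) ≤ (2 * m) * ((21 * m * (w + 1)) * w) :=
      Nat.mul_le_mul (by omega) (Nat.mul_le_mul_right _ hlle)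
    have h2 : (2 * m) * ((21 * m * (w + 1)) * w) < 42 * m ^ 2 * (w + 1) ^ 2 := by
      have e1 : (2 * m) * ((21 * m * (w + 1)) * w) = (42 * m ^ 2 * (w + 1)) * w := by ring
      have e2 : 42 * m ^ 2 * (w + 1) ^ 2 = (42 * m ^ 2 * (w + 1)) * (w + 1) := by ring
      rw [e1, e2]
      apply Nat.mul_lt_mul_of_pos_left (Nat.lt_succ_self w)
      positivity
    omega
  obtain ⟨H, hE, hHP⟩ := exists_essential A l
  set E := A.filter (fun x => x ∉ H) with hEdef
  set X := A.filter (fun x => x ∈ H) with hXdef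
  have hXE : X.card + E.card = κ + t := by
    rw [← hA, hXdef, hEdef]
    exact Finset.card_filter_add_card_filter_not _
  have hidxpos : H.index ≠ 0 := AddSubgroup.index_ne_zero_of_finite
  have hidxcard : H.index * Nat.card H = m * κ := by
    rw [AddSubgroup.index_mul_card, Nat.card_eq_fintype_card, ← hn, hcard]
  have hHpos : 0 < Nat.card H := Nat.card_pos
  have hHn : Nat.card H ≤ n := by
    rw [hcard, ← hidxcard]
    exact Nat.le_mul_of_pos_left _ (Nat.pos_of_ne_zero hidxpos)
  have hidxn : H.index ≤ n := by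
    rw [hcard, ← hidxcard]
    exact Nat.le_mul_of_pos_right _ hHpos
  have hEw : E.card ≤ l * w :=
    hE.trans (Nat.mul_le_mul_left _ (Nat.log_mono_right hidxn))
  have hXH : X.card ≤ Nat.card H := by
    rw [Nat.card_eq_fintype_card, Fintype.card_subtype]
    apply Finset.card_le_card
    intro x hx
    rw [hXdef, Finset.mem_filter] at hx
    rw [Finset.mem_filter]
    exact ⟨Finset.mem_univ _, hx.2⟩
  have hidxm : H.index ≤ m := by
    by_contra hcon
    push Not at hcon
    have h1 : (m + 1) * Nat.card H ≤ m * κ := by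
      rw [← hidxcard]; exact Nat.mul_le_mul_right _ hcon
    have h2 : κ ≤ Nat.card H + l * w := by omega
    have h3 : (m + 1) * κ ≤ (m + 1) * Nat.card H + (m + 1) * (l * w) := by
      rw [← Nat.mul_add]; exact Nat.mul_le_mul_left _ h2
    have h4 : (m + 1) * κ = m * κ + κ := by ring
    omega
  have hHκ : Nat.card H ≤ m * κ := by rw [← hcard]; exact hHn
  -- maximal subset of `E` with a signed sum in `H`
  obtain ⟨E', hE'mem, hE'max⟩ := Finset.exists_max_image (E.powerset.filter (fun C => SZ H C))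
    Finset.card ⟨∅, by
      rw [Finset.mem_filter]
      exact ⟨Finset.empty_mem_powerset _, fun _ => 1, by simp, by simp [H.zero_mem]⟩⟩
  rw [Finset.mem_filter, Finset.mem_powerset] at hE'mem
  obtain ⟨hE'E, hE'SZ⟩ := hE'mem
  set R := E \ E' with hRdef
  have hRno : ∀ C ⊆ R, C.Nonempty → ¬ SZ H C := by
    intro C hC hCne hSZ
    have hdis : Disjoint E' C := by
      rw [Finset.disjoint_left]
      intro x hx hx'
      have := hC hx'
      rw [hRdef, Finset.mem_sdiff] at this
      exact this.2 hx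
    have hmem : E' ∪ C ∈ E.powerset.filter (fun C => SZ H C) := by
      rw [Finset.mem_filter, Finset.mem_powerset]
      exact ⟨Finset.union_subset hE'E (hC.trans Finset.sdiff_subset), hE'SZ.union hdis hSZ⟩
    have := hE'max _ hmem
    rw [Finset.card_union_of_disjoint hdis] at this
    have := hCne.card_pos
    omega
  obtain ⟨D, hD, hDc⟩ := dissociated_image hRno
  have hRt : R.card ≤ t := by rw [← hDc]; exact ht H hidxm D hD
  have hRc : R.card + E'.card = E.card := by
    rw [hRdef]; exact Finset.card_sdiff_add_card_eq_card hE'E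
  -- the part inside `H`
  obtain ⟨X', hX'X, hX'c⟩ := Finset.exists_subset_card_eq (s := X) (n := κ - E'.card) (by omega)
  have hX'H : ∀ x ∈ X', x ∈ H := by
    intro x hx
    have := hX'X hx
    rw [hXdef, Finset.mem_filter] at this
    exact this.2
  have hE'κ : E'.card ≤ κ := by omega
  have hcover := cover H X' hX'H (s := s) (L := L) (by omega)
    (by
      intro P hPH hPne
      have h1 := hHP P hPH hPne
      have h2 : (X.filter (fun x => x ∉ P)).card ≤
          (X'.filter (fun x => x ∉ P)).card + (X \ X').card := by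
        refine (Finset.card_le_card ?_).trans (Finset.card_union_le _ _)
        intro x hx
        rw [Finset.mem_filter] at hx
        rw [Finset.mem_union, Finset.mem_filter, Finset.mem_sdiff]
        by_cases h : x ∈ X'
        · left; exact ⟨h, hx.2⟩
        · right; exact ⟨hx.1, h⟩
      have h3 : (X \ X').card + X'.card = X.card := Finset.card_sdiff_add_card_eq_card hX'X
      omega)
    (by
      have h1 : κ ≤ 2 * (X'.card - s) := by omega
      have h2 : (4 * m + 1) * κ ≤ (4 * m + 1) * (2 * (X'.card - s)) := Nat.mul_le_mul_left _ h1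
      have h3 : (4 * m + 1) * (2 * (X'.card - s)) = 2 * ((4 * m + 1) * (X'.card - s)) := by ring
      have h4 : (4 * m + 1) * κ = 4 * (m * κ) + κ := by ring
      rw [hL]
      omega)
    (by
      rw [hs]
      apply Nat.mul_le_mul_left
      have := Nat.log_mono_right (b := 2) hHn
      omega)
  obtain ⟨εE, hεE, hsumE⟩ := hE'SZ
  set h0 := ∑ a ∈ E', εE a • a with hh0
  set z := ∑ a ∈ X', a + h0 with hz
  have hzH : z ∈ H := H.add_mem (AddSubgroup.sum_mem _ hX'H) hsumE
  obtain ⟨c, hc⟩ := hodd
  have hyH : (c + 1) • z ∈ H := AddSubgroup.nsmul_mem _ hzH _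
  have h2y : 2 • ((c + 1) • z) = z := by
    rw [← mul_smul]
    have : 2 * (c + 1) = n + 1 := by omega
    rw [this, add_smul, one_smul, hn, card_nsmul_eq_zero, zero_add]
  obtain ⟨C, hCX', hCsum⟩ := hcover _ hyH
  have hdis : Disjoint E' X' := by
    rw [Finset.disjoint_left]
    intro x hx hx'
    have h1 := hE'E hx
    rw [hEdef, Finset.mem_filter] at h1
    exact h1.2 (hX'H x hx')
  refine ⟨E' ∪ X', ?_, ?_, fun a => if a ∈ E' then εE a else (if a ∈ C then -1 else 1), ?_, ?_⟩
  · apply Finset.union_subset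
    · exact hE'E.trans (Finset.filter_subset _ _)
    · exact hX'X.trans (Finset.filter_subset _ _)
  · rw [Finset.card_union_of_disjoint hdis, hX'c]
    omega
  · apply sign_combine hεE
    intro a _
    by_cases h : a ∈ C <;> simp [h]
  · rw [sum_combine hdis, ← hh0]
    have h1 : ∑ a ∈ X', (if a ∈ C then (-1 : ℤ) else 1) • a = ∑ a ∈ X', a - 2 • ∑ a ∈ C, a := by
      rw [← Finset.sum_sdiff hCX', ← Finset.sum_sdiff hCX' (f := fun a => a)]
      have e1 : ∑ a ∈ X' \ C, (if a ∈ C then (-1 : ℤ) else 1) • a = ∑ a ∈ X' \ C, a := by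
        apply Finset.sum_congr rfl
        intro a ha
        rw [Finset.mem_sdiff] at ha
        simp [ha.2]
      have e2 : ∑ a ∈ C, (if a ∈ C then (-1 : ℤ) else 1) • a = -∑ a ∈ C, a := by
        rw [← Finset.sum_neg_distrib]
        apply Finset.sum_congr rfl
        intro a ha
        simp [ha]
      rw [e1, e2, two_smul]
      abel
    rw [h1, hCsum, h2y, hz]
    abel

/-! ### Lower bound -/

open Classical in
theorem lower_core {κ m : ℕ} (hcard : Fintype.card G = m * κ) {H : AddSubgroup G}
    (hH : H.index ≤ m) {D : Finset (G ⧸ H)} (hD : Dissociated D) :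
    κ - 1 + D.card ∈ sizes G κ := by
  have hnpos : 0 < Fintype.card G := Fintype.card_pos
  have hmpos : 0 < m := Nat.pos_of_ne_zero (by rintro rfl; omega)
  have hκpos : 0 < κ := Nat.pos_of_ne_zero (by rintro rfl; omega)
  have hidxcard : H.index * Nat.card H = m * κ := by
    rw [AddSubgroup.index_mul_card, Nat.card_eq_fintype_card, hcard]
  have hHκ : κ ≤ Nat.card H := by
    apply Nat.le_of_mul_le_mul_left _ hmpos
    rw [← hidxcard]
    exact Nat.mul_le_mul_right _ hH
  have hels : (els H).card = Nat.card H := by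
    rw [Nat.card_eq_fintype_card, Fintype.card_subtype, els]
  obtain ⟨X, hXH, hXc⟩ := Finset.exists_subset_card_eq (s := els H) (n := κ - 1) (by omega)
  set D' := D.image (fun q => Quotient.out q) with hD'
  have hmk : ∀ q : G ⧸ H, (QuotientAddGroup.mk (Quotient.out q) : G ⧸ H) = q :=
    fun q => QuotientAddGroup.out_eq' q
  have hD'c : D'.card = D.card := by
    apply Finset.card_image_of_injective
    intro a b hab
    rw [← hmk a, ← hmk b]
    exact congrArg _ hab
  have h0D : (0 : G ⧸ H) ∉ D := by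
    intro h0
    apply hD {0} (Finset.singleton_subset_iff.mpr h0) (Finset.singleton_nonempty _) (fun _ => 1)
    · intro d _; left; rfl
    · simp
  have hdis : Disjoint X D' := by
    rw [Finset.disjoint_left]
    intro x hx hx'
    rw [hD', Finset.mem_image] at hx'
    obtain ⟨q, hq, rfl⟩ := hx'
    apply h0D
    have h1 := mem_els.mp (hXH hx)
    rw [← QuotientAddGroup.eq_zero_iff, hmk] at h1
    rwa [h1] at hq
  refine ⟨X ∪ D', ?_, by rw [Finset.card_union_of_disjoint hdis, hXc, hD'c]⟩
  rintro ⟨C, hC, hCc, ε, hε, hsum⟩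
  -- elements of `C` outside `X`
  set C' := C.filter (fun a => a ∈ D') with hC'
  have hC'ne : C'.Nonempty := by
    rw [Finset.nonempty_iff_ne_empty]
    intro hemp
    have hsub : C ⊆ X := by
      intro x hx
      have := hC hx
      rw [Finset.mem_union] at this
      rcases this with h | h
      · exact h
      · exfalso
        have : x ∈ C' := by rw [hC', Finset.mem_filter]; exact ⟨hx, h⟩
        rw [hemp] at this
        exact Finset.notMem_empty _ this
    have := Finset.card_le_card hsub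
    omega
  have hsum' : ∑ a ∈ C', ε a • (QuotientAddGroup.mk a : G ⧸ H) = 0 := by
    have h1 : (QuotientAddGroup.mk (∑ a ∈ C, ε a • a) : G ⧸ H) = 0 := by rw [hsum]; rfl
    rw [QuotientAddGroup.mk_sum] at h1
    rw [← h1, hC', Finset.sum_filter]
    apply Finset.sum_congr rfl
    intro a ha
    by_cases h : a ∈ D'
    · simp only [h, if_true]; rfl
    · simp only [h, if_false]
      have hX : a ∈ X := by
        have := hC ha
        rw [Finset.mem_union] at this
        exact this.resolve_right h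
      have h2 := mem_els.mp (hXH hX)
      symm
      rw [QuotientAddGroup.eq_zero_iff]
      exact H.zsmul_mem h2 _
  have hinj : Set.InjOn (QuotientAddGroup.mk : G → G ⧸ H) (C' : Set G) := by
    intro a ha b hb hab
    rw [Finset.mem_coe, hC', Finset.mem_filter, hD', Finset.mem_image] at ha hb
    obtain ⟨_, q, _, rfl⟩ := ha
    obtain ⟨_, r, _, rfl⟩ := hb
    rw [hmk, hmk] at hab
    rw [hab]
  apply hD (C'.image QuotientAddGroup.mk) _ (hC'ne.image _) (fun q => ε (Quotient.out q))
  · intro q hq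
    rw [Finset.mem_image] at hq
    obtain ⟨a, ha, rfl⟩ := hq
    rw [hC', Finset.mem_filter, hD', Finset.mem_image] at ha
    obtain ⟨haC, q, hq, rfl⟩ := ha
    rw [hmk]
    exact hε _ haC
  · rw [Finset.sum_image hinj, ← hsum']
    apply Finset.sum_congr rfl
    intro a ha
    rw [hC', Finset.mem_filter, hD', Finset.mem_image] at ha
    obtain ⟨haC, q, hq, rfl⟩ := ha
    rw [hmk]
  · intro q hq
    rw [Finset.mem_image] at hq
    obtain ⟨a, ha, rfl⟩ := hq
    rw [hC', Finset.mem_filter, hD', Finset.mem_image] at ha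
    obtain ⟨haC, q, hq, rfl⟩ := ha
    rw [hmk]
    exact hq

end

/-! ### Assembling -/

theorem card_le_of_mem_quotientSizes {G : Type*} [AddCommGroup G] [Finite G] {m k : ℕ}
    (hk : k ∈ quotientSizes G m) : 2 ^ k ≤ m := by
  obtain ⟨H, hH, D, hD, rfl⟩ := hk
  have := two_pow_card_le hD
  rw [← AddSubgroup.index_eq_card] at this
  exact this.trans hH

theorem isGreatest_quotientDis {G : Type*} [AddCommGroup G] [Finite G] {m : ℕ} (hm : 0 < m) :
    IsGreatest (quotientSizes G m) (quotientDis G m) := by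
  have hbdd : BddAbove (quotientSizes G m) := by
    refine ⟨m, ?_⟩
    intro k hk
    exact (Nat.lt_two_pow_self).le.trans (card_le_of_mem_quotientSizes hk)
  have hne : (quotientSizes G m).Nonempty := by
    refine ⟨0, ⊤, by rw [AddSubgroup.index_top]; exact hm, ∅, ?_, Finset.card_empty⟩
    intro C hC hCne
    rw [Finset.subset_empty] at hC
    rw [hC] at hCne
    exact absurd hCne Finset.not_nonempty_empty
  exact ⟨Nat.sSup_mem hne hbdd, fun k hk => le_csSup hbdd hk⟩

theorem signedSums_mono {G : Type*} [AddCommGroup G] {h : ℕ} {A B : Finset G} (hAB : A ⊆ B) :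
    signedSums h A ⊆ signedSums h B := by
  rintro x ⟨C, hC, h1, h2⟩
  exact ⟨C, hC.trans hAB, h1, h2⟩

theorem isGreatest_of_bounds {G : Type*} [AddCommGroup G] [Finite G] {κ m t : ℕ}
    (hcard : Nat.card G = m * κ) (hodd : Odd (Nat.card G))
    (hbig : 42 * m ^ 2 * (Nat.log 2 (Nat.card G) + 1) ^ 2 ≤ κ)
    (ht : IsGreatest (quotientSizes G m) t) : IsGreatest (sizes G κ) (κ - 1 + t) := by
  classical
  have := Fintype.ofFinite G
  rw [Nat.card_eq_fintype_card] at hcard hodd hbig
  have hnpos : 0 < Fintype.card G := Fintype.card_pos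
  have hκpos : 0 < κ := Nat.pos_of_ne_zero (by rintro rfl; omega)
  constructor
  · obtain ⟨H, hH, D, hD, hDc⟩ := ht.1
    rw [← hDc]
    exact lower_core hcard hH hD
  · rintro k ⟨A, hA, rfl⟩
    by_contra hcon
    push Not at hcon
    obtain ⟨A', hA'A, hA'c⟩ := Finset.exists_subset_card_eq (s := A) (n := κ + t) (by omega)
    apply hA
    apply signedSums_mono hA'A
    refine upper_core hcard hodd hbig (t := t) ?_ (card_le_of_mem_quotientSizes ht.1) hA'c
    intro H hH D hD
    exact ht.2 ⟨H, hH, D, hD, rfl⟩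

/-! ### Rank two -/

theorem sum_signs_bound (k : ℕ) (ε : ℕ → ℤ) (I : Finset ℕ) (hI : I ⊆ Finset.range k)
    (hε : ∀ i ∈ I, ε i = 1 ∨ ε i = -1) : |∑ i ∈ I, ε i * 2 ^ i| < 2 ^ k := by
  induction k generalizing I with
  | zero =>
    rw [Finset.range_zero, Finset.subset_empty] at hI
    simp [hI]
  | succ k ih =>
    have h1 := ih (I.erase k) (by
      intro i hi
      rw [Finset.mem_erase] at hi
      have := hI hi.2
      rw [Finset.mem_range] at this ⊢
      omega) (fun i hi => hε i (Finset.mem_of_mem_erase hi))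
    by_cases hk : k ∈ I
    · rw [← Finset.add_sum_erase I _ hk]
      have h2 : |ε k * 2 ^ k| = 2 ^ k := by
        rcases hε k hk with h | h <;> rw [h] <;> simp
      have h3 := abs_add_le (ε k * 2 ^ k) (∑ i ∈ I.erase k, ε i * 2 ^ i)
      rw [pow_succ]
      omega
    · rw [Finset.erase_eq_of_notMem hk] at h1
      rw [pow_succ]
      have : (0 : ℤ) < 2 ^ k := by positivity
      omega

theorem sum_signs_ne_zero (k : ℕ) (ε : ℕ → ℤ) (I : Finset ℕ) (hI : I ⊆ Finset.range k)
    (hne : I.Nonempty) (hε : ∀ i ∈ I, ε i = 1 ∨ ε i = -1) : ∑ i ∈ I, ε i * 2 ^ i ≠ 0 := by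
  set j := I.max' hne with hj
  have hjI : j ∈ I := Finset.max'_mem _ _
  have h1 := sum_signs_bound j ε (I.erase j) (by
    intro i hi
    rw [Finset.mem_erase] at hi
    have := Finset.le_max' I i hi.2
    rw [Finset.mem_range]
    omega) (fun i hi => hε i (Finset.mem_of_mem_erase hi))
  rw [← Finset.add_sum_erase I _ hjI]
  have h2 : |ε j * 2 ^ j| = 2 ^ j := by
    rcases hε j hjI with h | h <;> rw [h] <;> simp
  intro h0
  have h3 : ε j * 2 ^ j = -∑ i ∈ I.erase j, ε i * 2 ^ i := by linarith
  rw [h3, abs_neg] at h2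
  omega

/-- Powers of two give a dissociated set in a cyclic group. -/
theorem exists_dissociated_zmod (n : ℕ) (hn : 1 < n) :
    ∃ D : Finset (ZMod n), Dissociated D ∧ D.card = Nat.log 2 n := by
  classical
  have : NeZero n := ⟨by omega⟩
  set k := Nat.log 2 n with hk
  have hkn : 2 ^ k ≤ n := Nat.pow_log_le_self 2 (by omega)
  set f : ℕ → ZMod n := fun i => ((2 ^ i : ℤ) : ZMod n) with hf
  have hlt : ∀ i, i < k → 2 ^ i < n := fun i hi =>
    (Nat.pow_lt_pow_right (by norm_num) hi).trans_le hkn
  have hinj : Set.InjOn f (Finset.range k : Set ℕ) := by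
    intro a ha b hb hab
    rw [Finset.mem_coe, Finset.mem_range] at ha hb
    have hab' : (((2 ^ a : ℕ) : ZMod n)) = ((2 ^ b : ℕ) : ZMod n) := by
      have : ((2 ^ a : ℤ) : ZMod n) = ((2 ^ b : ℤ) : ZMod n) := hab
      push_cast at this ⊢
      exact this
    rw [ZMod.natCast_eq_natCast_iff', Nat.mod_eq_of_lt (hlt a ha), Nat.mod_eq_of_lt (hlt b hb)] at hab'
    exact Nat.pow_right_injective le_rfl hab'
  refine ⟨(Finset.range k).image f, ?_, by
    rw [Finset.card_image_of_injOn hinj, Finset.card_range]⟩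
  intro C hC hCne ε hε hsum
  set I := (Finset.range k).filter (fun i => f i ∈ C) with hI
  have hIC : I.image f = C := by
    ext x
    rw [Finset.mem_image]
    constructor
    · rintro ⟨i, hi, rfl⟩
      rw [hI, Finset.mem_filter] at hi
      exact hi.2
    · intro hx
      have := hC hx
      rw [Finset.mem_image] at this
      obtain ⟨i, hi, rfl⟩ := this
      exact ⟨i, by rw [hI, Finset.mem_filter]; exact ⟨hi, hx⟩, rfl⟩
  have hIne : I.Nonempty := by
    rw [← hIC] at hCne
    exact Finset.image_nonempty.mp hCne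
  have hIk : I ⊆ Finset.range k := Finset.filter_subset _ _
  have hsgn : ∀ i ∈ I, ε (f i) = 1 ∨ ε (f i) = -1 := by
    intro i hi
    rw [hI, Finset.mem_filter] at hi
    exact hε _ hi.2
  have h1 : ((∑ i ∈ I, ε (f i) * 2 ^ i : ℤ) : ZMod n) = 0 := by
    rw [← hsum, ← hIC, Finset.sum_image (fun a ha b hb hab => hinj (hIk ha) (hIk hb) hab)]
    rw [Int.cast_sum]
    apply Finset.sum_congr rfl
    intro i _
    rw [zsmul_eq_mul, Int.cast_mul]
  rw [ZMod.intCast_zmod_eq_zero_iff_dvd] at h1
  have h2 := sum_signs_bound k (fun i => ε (f i)) I hIk hsgn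
  have h3 := sum_signs_ne_zero k (fun i => ε (f i)) I hIk hIne hsgn
  apply h3
  apply Int.eq_zero_of_abs_lt_dvd h1
  refine h2.trans_le ?_
  exact_mod_cast hkn

theorem dissociated_of_equiv {Q Q' : Type*} [AddCommGroup Q] [AddCommGroup Q'] (e : Q ≃+ Q')
    {D : Finset Q'} (hD : Dissociated D) : ∃ D' : Finset Q, Dissociated D' ∧ D'.card = D.card := by
  classical
  refine ⟨D.image e.symm, ?_, Finset.card_image_of_injective _ e.symm.injective⟩
  intro C hC hCne ε hε hsum
  apply hD (C.image e) _ (hCne.image _) (fun q => ε (e.symm q))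
  · intro q hq
    rw [Finset.mem_image] at hq
    obtain ⟨c, hc, rfl⟩ := hq
    rw [e.symm_apply_apply]
    exact hε _ hc
  · rw [Finset.sum_image (fun a _ b _ hab => e.injective hab)]
    have := congrArg e hsum
    rw [map_zero, map_sum] at this
    rw [← this]
    apply Finset.sum_congr rfl
    intro c _
    rw [e.symm_apply_apply, map_zsmul]
  · intro q hq
    rw [Finset.mem_image] at hq
    obtain ⟨c, hc, rfl⟩ := hq
    have := hC hc
    rw [Finset.mem_image] at this
    obtain ⟨d, hd, rfl⟩ := this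
    rw [e.apply_symm_apply]
    exact hd

theorem isGreatest_rank_two (n₁ n₂ : ℕ) (h1 : 1 < n₁) (h2 : 0 < n₂) :
    IsGreatest (quotientSizes (ZMod n₁ × ZMod n₂) n₁) (Nat.log 2 n₁) := by
  have : NeZero n₁ := ⟨by omega⟩
  have : NeZero n₂ := ⟨by omega⟩
  constructor
  · set φ : ZMod n₁ × ZMod n₂ →+ ZMod n₁ := AddMonoidHom.fst _ _ with hφ
    have hsurj : Function.Surjective φ := fun x => ⟨(x, 0), rfl⟩
    set e : (ZMod n₁ × ZMod n₂) ⧸ φ.ker ≃+ ZMod n₁ :=
      QuotientAddGroup.quotientKerEquivOfSurjective φ hsurj with he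
    obtain ⟨D, hD, hDc⟩ := exists_dissociated_zmod n₁ h1
    obtain ⟨D', hD', hD'c⟩ := dissociated_of_equiv e hD
    refine ⟨φ.ker, ?_, D', hD', by rw [hD'c, hDc]⟩
    rw [AddSubgroup.index_eq_card, Nat.card_congr e.toEquiv, Nat.card_zmod]
  · intro k hk
    exact Nat.le_log_of_pow_le (by norm_num) (card_le_of_mem_quotientSizes hk)

/-- **Main theorem.** For every finite abelian group `G` of odd exponent `κ` with
`κ ≥ 42 m² (1 + ⌊log₂ |G|⌋)²`, where `m = |G| / κ`, the value of `τ_±(G, κ)` is `κ - 1` plus the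
largest size of a dissociated subset of a quotient of `G` of order at most `m`. In particular
`τ_±(ℤ_{n₁} × ℤ_{n₂}, n₂) = n₂ - 1 + ⌊log₂ n₁⌋` for odd `n₂` large compared with `n₁ ∣ n₂`. -/
theorem result :
    (∀ (G : Type) [AddCommGroup G] [Finite G] (κ m : ℕ), κ = AddMonoid.exponent G →
      Nat.card G = m * κ → Odd κ → 42 * m ^ 2 * (Nat.log 2 (Nat.card G) + 1) ^ 2 ≤ κ →
        IsGreatest (sizes G κ) (tau G κ) ∧ IsGreatest (quotientSizes G m) (quotientDis G m) ∧
          tau G κ = κ - 1 + quotientDis G m) ∧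
    (∀ n₁ n₂ : ℕ, 1 < n₁ → n₁ ∣ n₂ → Odd n₂ →
      42 * n₁ ^ 2 * (Nat.log 2 (n₁ * n₂) + 1) ^ 2 ≤ n₂ →
        AddMonoid.exponent (ZMod n₁ × ZMod n₂) = n₂ ∧
          tau (ZMod n₁ × ZMod n₂) n₂ = n₂ - 1 + Nat.log 2 n₁) := by
  constructor
  · intro G _ _ κ m hκ hcard hodd hbig
    have hoddG : Odd (Nat.card G) := by
      rw [← Nat.not_even_iff_odd, even_iff_two_dvd]
      intro h2
      have hp : Fact (Nat.Prime 2) := ⟨Nat.prime_two⟩
      obtain ⟨x, hx⟩ := exists_prime_addOrderOf_dvd_card' (G := G) 2 h2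
      have : 2 ∣ κ := by
        rw [hκ, ← hx]
        exact AddMonoid.addOrder_dvd_exponent x
      rw [← Nat.not_even_iff_odd] at hodd
      exact hodd (even_iff_two_dvd.mpr this)
    have hm : 0 < m := Nat.pos_of_ne_zero (by
      rintro rfl
      have := Nat.card_pos (α := G)
      omega)
    have hq := isGreatest_quotientDis (G := G) hm
    have hmain := isGreatest_of_bounds hcard hoddG hbig hq
    have htau : tau G κ = κ - 1 + quotientDis G m := hmain.csSup_eq
    exact ⟨by rw [htau]; exact hmain, hq, htau⟩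
  · intro n₁ n₂ h1 hdvd hodd hbig
    have hn₂ : 0 < n₂ := hodd.pos
    have : NeZero n₁ := ⟨by omega⟩
    have : NeZero n₂ := ⟨by omega⟩
    have hcard : Nat.card (ZMod n₁ × ZMod n₂) = n₁ * n₂ := by
      rw [Nat.card_prod, Nat.card_zmod, Nat.card_zmod]
    have hoddG : Odd (Nat.card (ZMod n₁ × ZMod n₂)) := by
      rw [hcard]
      exact (Odd.of_dvd_nat hodd hdvd).mul hodd
    refine ⟨?_, ?_⟩
    · rw [AddMonoid.exponent_prod, ZMod.exponent, ZMod.exponent]
      exact Nat.lcm_eq_right hdvd
    · have hmain := isGreatest_of_bounds hcard hoddG (by rw [hcard]; exact hbig)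
        (isGreatest_rank_two n₁ n₂ h1 hn₂)
      exact hmain.csSup_eq

end Pool.Agent.Results.MP_8ac08c_co.OddExponent
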